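import Pool.Agent.Lib.ALLO.LocV
import Pool.Agent.Lib.ALL_h43.Mon
import Pool.Agent.Lib.ALLY.Defs

/-!
# TANK G, limit level: plain frames (`Γ = 0` allowed, `Γ` not full)

`IsFr v Γ χ y R`: `R` is a local ring dominated by `v`, generated (up to localisation at the
centre) by finitely many elements and the monomials `χ γ`, `γ ∈ Γ`, `γ ≥ 0`, whose maximal ideal is
generated by `χ γ`, `γ > 0`, and the parameters `y`.
-/

set_option autoImplicit false

namespace Pool.Agent.TGBh34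

open Pool.Agent.TAO (OVal VPos Ctx0 CtxR val_add_vpos)
open Pool.Agent.ALLO (locv le_locv locv_mono locv_le locv_inv locv_nonneg locv_field locv_locv
  locv_adjoin_le)
open Pool.Agent.ALLh43 (Mon ext le_ext mem_ext mem_ext_iff ext_fg exists_chi add_mul_mem_ext
  exists_section int_mul_mem)
open Pool.Agent.LU1 (FracIs)

universe u w

variable {k Ω : Type u} [Field k] [Field Ω] [Algebra k Ω]
  {𝕂 : Type w} [Field 𝕂] [LinearOrder 𝕂] [IsStrictOrderedRing 𝕂] {v : OVal 𝕂 Ω} {D : ℕ}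

/-- The ideal generated by the monomials of positive value and the parameters. -/
def MM0 (Γ : AddSubgroup 𝕂) (χ : 𝕂 → Ω) (y : Fin D → Ω) (R : Subalgebra k Ω) (f : Ω) : Prop :=
  ∃ γ ∈ Γ, ∃ a ∈ R, (0 < γ ∨ a = 0) ∧ ∃ b : Fin D → Ω, (∀ i, b i ∈ R) ∧
    f = χ γ * a + ∑ i, y i * b i

/-- The data of a frame except for the generators. -/
structure Pre0 (v : OVal 𝕂 Ω) (Γ : AddSubgroup 𝕂) (χ : 𝕂 → Ω) (y : Fin D → Ω)
    (R : Subalgebra k Ω) : Prop where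
  mon : Mon v Γ χ
  y_ne : ∀ i, y i ≠ 0
  y_pos : ∀ i, 0 < v (y i)
  nonneg : ∀ f ∈ R, v.Ge 0 f
  loc : ∀ f ∈ R, f ≠ 0 → v f = 0 → f⁻¹ ∈ R
  χ_mem : ∀ γ ∈ Γ, 0 ≤ γ → χ γ ∈ R
  y_mem : ∀ i, y i ∈ R

/-- Plain frames. -/
structure IsFr (v : OVal 𝕂 Ω) (Γ : AddSubgroup 𝕂) (χ : 𝕂 → Ω) (y : Fin D → Ω)
    (R : Subalgebra k Ω) : Prop extends Pre0 v Γ χ y R where
  fg : Γ.FG
  fgen : ∃ F : Finset Ω,
    R = locv v (Algebra.adjoin k ((F : Set Ω) ∪ χ '' {γ | γ ∈ Γ ∧ 0 ≤ γ}))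
  gen : ∀ f ∈ R, VPos v f → MM0 Γ χ y R f

theorem vpos_sum {ι : Type*} (s : Finset ι) (f : ι → Ω) (h : ∀ i ∈ s, VPos v (f i)) :
    VPos v (∑ i ∈ s, f i) := by
  classical
  induction s using Finset.induction_on with
  | empty => simpa using (VPos.zero : VPos v (0 : Ω))
  | insert a s ha ih =>
    rw [Finset.sum_insert ha]
    exact (h a (Finset.mem_insert_self a s)).add
      (ih fun i hi => h i (Finset.mem_insert_of_mem hi))

namespace Pre0

variable {Γ : AddSubgroup 𝕂} {χ : 𝕂 → Ω} {y : Fin D → Ω} {R : Subalgebra k Ω}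

theorem χ_dvd (H : Pre0 v Γ χ y R) {γ δ : 𝕂} (h : γ ∈ Γ) (h' : δ ∈ Γ) (hle : δ ≤ γ) :
    ∃ a ∈ R, χ γ = χ δ * a :=
  ⟨χ (γ - δ), H.χ_mem _ (Γ.sub_mem h h') (sub_nonneg.2 hle), by
    rw [← H.mon.add δ h' _ (Γ.sub_mem h h')]; congr 1; ring⟩

theorem mm_zero (_H : Pre0 v Γ χ y R) : MM0 Γ χ y R 0 :=
  ⟨0, Γ.zero_mem, 0, R.zero_mem, Or.inr rfl, 0, fun _ => R.zero_mem, by simp⟩

theorem mm_χ (_H : Pre0 v Γ χ y R) {γ : 𝕂} (hγ : γ ∈ Γ) (h0 : 0 < γ) {a : Ω} (ha : a ∈ R) :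
    MM0 Γ χ y R (χ γ * a) :=
  ⟨γ, hγ, a, ha, Or.inl h0, 0, fun _ => R.zero_mem, by simp⟩

theorem mm_y (_H : Pre0 v Γ χ y R) (i : Fin D) {a : Ω} (ha : a ∈ R) :
    MM0 Γ χ y R (y i * a) := by
  classical
  refine ⟨0, Γ.zero_mem, 0, R.zero_mem, Or.inr rfl, fun j => if j = i then a else 0,
    fun j => ?_, ?_⟩
  · dsimp only
    split_ifs
    · exact ha
    · exact R.zero_mem
  · simp

theorem mm_add (H : Pre0 v Γ χ y R) {f g : Ω} (hf : MM0 Γ χ y R f) (hg : MM0 Γ χ y R g) :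
    MM0 Γ χ y R (f + g) := by
  obtain ⟨γ, hγ, a, ha, h0, b, hb, rfl⟩ := hf
  obtain ⟨δ, hδ, c, hc, h1, d, hd, rfl⟩ := hg
  by_cases ha0 : a = 0
  · refine ⟨δ, hδ, c, hc, h1, fun i => b i + d i, fun i => R.add_mem (hb i) (hd i), ?_⟩
    simp only [mul_add, Finset.sum_add_distrib]
    rw [ha0]; ring
  by_cases hc0 : c = 0
  · refine ⟨γ, hγ, a, ha, h0, fun i => b i + d i, fun i => R.add_mem (hb i) (hd i), ?_⟩
    simp only [mul_add, Finset.sum_add_distrib]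
    rw [hc0]; ring
  have h0' : 0 < γ := h0.resolve_right ha0
  have h1' : 0 < δ := h1.resolve_right hc0
  rcases le_total γ δ with hle | hle
  · obtain ⟨e, he, h2⟩ := H.χ_dvd hδ hγ hle
    refine ⟨γ, hγ, a + e * c, R.add_mem ha (R.mul_mem he hc), Or.inl h0', fun i => b i + d i,
      fun i => R.add_mem (hb i) (hd i), ?_⟩
    simp only [mul_add, Finset.sum_add_distrib]
    rw [h2]; ring
  · obtain ⟨e, he, h2⟩ := H.χ_dvd hγ hδ hle
    refine ⟨δ, hδ, e * a + c, R.add_mem (R.mul_mem he ha) hc, Or.inl h1', fun i => b i + d i,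
      fun i => R.add_mem (hb i) (hd i), ?_⟩
    simp only [mul_add, Finset.sum_add_distrib]
    rw [h2]; ring

theorem mm_mul (_H : Pre0 v Γ χ y R) {f g : Ω} (hf : MM0 Γ χ y R f) (hg : g ∈ R) :
    MM0 Γ χ y R (f * g) := by
  obtain ⟨γ, hγ, a, ha, h0, b, hb, rfl⟩ := hf
  refine ⟨γ, hγ, a * g, R.mul_mem ha hg, h0.imp id fun h => by rw [h, zero_mul],
    fun i => b i * g, fun i => R.mul_mem (hb i) hg, ?_⟩
  rw [add_mul, Finset.sum_mul]
  congr 1
  · ring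
  · exact Finset.sum_congr rfl fun i _ => by ring

theorem mm_sum (H : Pre0 v Γ χ y R) {ι : Type*} (s : Finset ι) (f : ι → Ω)
    (h : ∀ i ∈ s, MM0 Γ χ y R (f i)) : MM0 Γ χ y R (∑ i ∈ s, f i) := by
  classical
  induction s using Finset.induction_on with
  | empty => simpa using H.mm_zero
  | insert a s ha ih =>
    rw [Finset.sum_insert ha]
    exact H.mm_add (h a (Finset.mem_insert_self a s))
      (ih fun i hi => h i (Finset.mem_insert_of_mem hi))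

theorem mm_mem (H : Pre0 v Γ χ y R) {f : Ω} (hf : MM0 Γ χ y R f) : f ∈ R := by
  obtain ⟨γ, hγ, a, ha, h0, b, hb, rfl⟩ := hf
  refine R.add_mem ?_ (R.sum_mem fun i _ => R.mul_mem (H.y_mem i) (hb i))
  rcases h0 with h0 | h0
  · exact R.mul_mem (H.χ_mem γ hγ h0.le) ha
  · rw [h0, mul_zero]
    exact R.zero_mem

theorem mm_vpos (H : Pre0 v Γ χ y R) {f : Ω} (hf : MM0 Γ χ y R f) : VPos v f := by
  obtain ⟨γ, hγ, a, ha, h0, b, hb, rfl⟩ := hf
  refine VPos.add ?_ (vpos_sum _ _ fun i _ => VPos.mul ?_ (H.nonneg _ (hb i)))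
  · rcases h0 with h0 | h0
    · refine VPos.mul ?_ (H.nonneg a ha)
      intro _; rw [H.mon.val γ hγ]; exact h0
    · rw [h0, mul_zero]
      exact VPos.zero
  · intro _; exact H.y_pos i

/-- `f` is a constant plus an element of `MM0`. -/
def Res (Γ : AddSubgroup 𝕂) (χ : 𝕂 → Ω) (y : Fin D → Ω) (R : Subalgebra k Ω) (f : Ω) : Prop :=
  ∃ c : k, MM0 Γ χ y R (f - algebraMap k Ω c)

theorem res_mem (H : Pre0 v Γ χ y R) {f : Ω} (hf : Res Γ χ y R f) : f ∈ R := by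
  obtain ⟨c, hc⟩ := hf
  have := R.add_mem (H.mm_mem hc) (R.algebraMap_mem c)
  rwa [sub_add_cancel] at this

theorem res_const (H : Pre0 v Γ χ y R) (c : k) : Res Γ χ y R (algebraMap k Ω c) :=
  ⟨c, by rw [sub_self]; exact H.mm_zero⟩

theorem res_of_mm (_H : Pre0 v Γ χ y R) {f : Ω} (hf : MM0 Γ χ y R f) : Res Γ χ y R f :=
  ⟨0, by rwa [_root_.map_zero, sub_zero]⟩

theorem res_add (H : Pre0 v Γ χ y R) {f g : Ω} (hf : Res Γ χ y R f) (hg : Res Γ χ y R g) :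
    Res Γ χ y R (f + g) := by
  obtain ⟨c, hc⟩ := hf
  obtain ⟨d, hd⟩ := hg
  refine ⟨c + d, ?_⟩
  have := H.mm_add hc hd
  have e : f + g - algebraMap k Ω (c + d) =
      f - algebraMap k Ω c + (g - algebraMap k Ω d) := by rw [_root_.map_add]; ring
  rwa [e]

theorem res_mul (H : Pre0 v Γ χ y R) {f g : Ω} (hf : Res Γ χ y R f) (hg : Res Γ χ y R g) :
    Res Γ χ y R (f * g) := by
  have hgR := H.res_mem hg
  obtain ⟨c, hc⟩ := hf
  obtain ⟨d, hd⟩ := hg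
  refine ⟨c * d, ?_⟩
  have := H.mm_add (H.mm_mul hc hgR) (H.mm_mul hd (R.algebraMap_mem c))
  have e : f * g - algebraMap k Ω (c * d) =
      (f - algebraMap k Ω c) * g + (g - algebraMap k Ω d) * algebraMap k Ω c := by
    rw [_root_.map_mul]; ring
  rwa [e]

theorem res_inv (H : Pre0 v Γ χ y R) {f : Ω} (hf : Res Γ χ y R f) (h0 : f ≠ 0)
    (h1 : v f = 0) : Res Γ χ y R f⁻¹ := by
  have hfR := H.res_mem hf
  have hi := H.loc f hfR h0 h1
  obtain ⟨c, hc⟩ := hf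
  have hc0 : algebraMap k Ω c ≠ 0 := by
    intro h2
    have h3 := H.mm_vpos hc
    rw [h2, sub_zero] at h3
    have := h3 h0
    rw [h1] at this
    exact lt_irrefl _ this
  refine ⟨c⁻¹, ?_⟩
  have h2 : -(f⁻¹ * (algebraMap k Ω c⁻¹)) ∈ R :=
    R.neg_mem (R.mul_mem hi (R.algebraMap_mem _))
  have := H.mm_mul hc h2
  have e : f⁻¹ - algebraMap k Ω c⁻¹ =
      (f - algebraMap k Ω c) * -(f⁻¹ * algebraMap k Ω c⁻¹) := by
    rw [map_inv₀]
    field_simp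
    ring
  rwa [e]

theorem res_zpow (H : Pre0 v Γ χ y R) {f : Ω} (hf : Res Γ χ y R f) (h0 : f ≠ 0)
    (h1 : v f = 0) (n : ℤ) : Res Γ χ y R (f ^ n) := by
  have key : ∀ {g : Ω}, Res Γ χ y R g → ∀ m : ℕ, Res Γ χ y R (g ^ m) := by
    intro g hg m
    induction m with
    | zero =>
      rw [pow_zero]
      have := H.res_const 1
      rwa [_root_.map_one] at this
    | succ m ih =>
      rw [pow_succ]
      exact H.res_mul ih hg
  obtain ⟨m, rfl | rfl⟩ := n.eq_nat_or_neg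
  · rw [zpow_natCast]
    exact key hf m
  · rw [zpow_neg, zpow_natCast, ← inv_pow]
    exact key (H.res_inv hf h0 h1) m

/-- If the generators are constants plus elements of `MM0`, so is every element of the ring. -/
theorem res_all (H : Pre0 v Γ χ y R) {S : Set Ω} (hR : R = locv v (Algebra.adjoin k S))
    (hS : ∀ f ∈ S, Res Γ χ y R f) : ∀ f ∈ R, Res Γ χ y R f := by
  have key : ∀ f ∈ Algebra.adjoin k S, Res Γ χ y R f := by
    intro f hf
    induction hf using Algebra.adjoin_induction with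
    | mem x hx => exact hS x hx
    | algebraMap c => exact H.res_const c
    | add x z _ _ hx hz => exact H.res_add hx hz
    | mul x z _ _ hx hz => exact H.res_mul hx hz
  intro f hf
  have hf' := hf
  rw [hR] at hf'
  obtain ⟨a, ha, b, hb, hb0, hvb, rfl⟩ := hf'
  rw [div_eq_mul_inv]
  exact H.res_mul (key a ha) (H.res_inv (key b hb) hb0 hvb)

theorem gen (H : Pre0 v Γ χ y R) {S : Set Ω} (hR : R = locv v (Algebra.adjoin k S))
    (hS : ∀ f ∈ S, Res Γ χ y R f) (hk : ∀ c : k, c ≠ 0 → v (algebraMap k Ω c) = 0) :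
    ∀ f ∈ R, VPos v f → MM0 Γ χ y R f := by
  intro f hf hv
  obtain ⟨c, hc⟩ := H.res_all hR hS f hf
  have h1 : VPos v (algebraMap k Ω c) := by
    have := hv.sub (H.mm_vpos hc)
    rwa [sub_sub_cancel] at this
  have h2 : c = 0 := by
    by_contra h0
    have := h1 (by simpa using h0)
    rw [hk c h0] at this
    exact lt_irrefl _ this
  rwa [h2, _root_.map_zero, sub_zero] at hc

end Pre0

/-- `f` is a monomial times a unit of `R`. -/
def Mono (v : OVal 𝕂 Ω) (Γ : AddSubgroup 𝕂) (χ : 𝕂 → Ω) (R : Subalgebra k Ω) (f : Ω) : Prop :=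
  f ≠ 0 ∧ v f ∈ Γ ∧ f / χ (v f) ∈ R

end Pool.Agent.TGBh34
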