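import Pool.Agent.Lib.TGB_h34.Tz
import Pool.Agent.Lib.TGL.Defs

/-!
# TANK G, track L: row 3.2 for limit frames
-/

set_option autoImplicit false

namespace Pool.Agent.TGBh34

open Pool.Agent.TAO (OVal VPos Ctx0 CtxR val_add_vpos)
open Pool.Agent.ALLO (locv)
open Pool.Agent.ALLh43 (Mon ext le_ext mem_ext)
open Pool.Agent.LU1 (FracIs)
open Pool.Agent.TGL (LF)

universe u w

variable {k Ω : Type u} [Field k] [Field Ω] [Algebra k Ω]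
  {𝕂 : Type w} [Field 𝕂] [LinearOrder 𝕂] [IsStrictOrderedRing 𝕂] {v : OVal 𝕂 Ω} {r D : ℕ}

/-- The plain frame of a limit frame. -/
theorem isFr_of_LF (B : LF k v r D) : IsFr v B.Γ B.χ B.y B.R where
  mon := ⟨B.χ_ne, B.χ_add, B.χ_val⟩
  y_ne := B.y_ne
  y_pos := B.y_pos
  nonneg := B.nonneg
  loc := B.loc
  χ_mem := B.χ_mem
  y_mem := B.y_mem
  fg := B.fg
  fgen := B.fgen
  gen := fun f hf h0 => by
    obtain ⟨γ, hγ, a, ha, h1, b, hb, e⟩ := B.gen f hf h0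
    exact ⟨γ, hγ, a, ha, h1, b, hb, e⟩

/-- The limit frame of a plain frame. -/
def LF_of_isFr {Γ : AddSubgroup 𝕂} {χ : 𝕂 → Ω} {y : Fin D → Ω} {R : Subalgebra k Ω}
    (h : IsFr v Γ χ y R) (rk : RkIs Γ r) : LF k v r D where
  Γ := Γ
  fg := h.fg
  rk := rk
  χ := χ
  χ_ne := h.mon.ne
  χ_add := h.mon.add
  χ_val := h.mon.val
  y := y
  y_ne := h.y_ne
  y_pos := h.y_pos
  R := R
  nonneg := h.nonneg
  loc := h.loc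
  χ_mem := h.χ_mem
  y_mem := h.y_mem
  fgen := h.fgen
  gen := fun f hf h0 => by
    obtain ⟨γ, hγ, a, ha, h1, b, hb, e⟩ := h.gen f hf h0
    exact ⟨γ, hγ, a, ha, h1, b, hb, e⟩

theorem mono_iff (B : LF k v r D) {f : Ω} : B.Mono f ↔ Mono v B.Γ B.χ B.R f := by
  constructor
  · rintro ⟨h0, h1, h2⟩
    exact ⟨h0, h1, h2.1⟩
  · rintro ⟨h0, h1, h2⟩
    have h3 := B.χ_ne _ h1
    refine ⟨h0, h1, h2, div_ne_zero h0 h3, ?_⟩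
    rw [v.map_div h0 h3, B.χ_val _ h1, sub_self]

/-- ROW 3.2 for limit frames. -/
theorem row32 (hk : ∀ c : k, c ≠ 0 → v (algebraMap k Ω c) = 0)
    (hr : ∀ g : Ω, g ≠ 0 → v g = 0 → ∃ c : k, c ≠ 0 ∧ VPos v (g - algebraMap k Ω c))
    (B : LF k v r D) {L : IntermediateField k Ω} (hL : FracIs B.R L) {z : Ω}
    (hz : ¬ IsAlgebraic L z) {S : Set Ω}
    (hS : ∀ s ∈ S, ∀ t ∈ S, s - t = 0 ∨ B.Mono (s - t)) (hSL : ∀ s ∈ S, s ∈ L) {s₀ : Ω}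
    (hs₀ : s₀ ∈ S) (hmax : ∀ s ∈ S, v (z - s) ≤ v (z - s₀)) :
    ∃ (r' D' : ℕ) (C : LF k v r' D'), r' + D' = r + D + 1 ∧
      C.R = Rz v B.Γ B.χ B.R (z - s₀) ∧ C.Γ = ext B.Γ (v (z - s₀)) ∧
      (∀ γ ∈ B.Γ, C.Un (B.χ γ / C.χ γ)) ∧
      (∀ i, ∃ j, C.y j = B.y i) ∧
      (∀ j, (∃ i, C.y j = B.y i) ∨ ∃ (q : ℕ) (c : k), 0 < q ∧ (q : 𝕂) * v (z - s₀) ∈ B.Γ ∧
        c ≠ 0 ∧ C.y j = (z - s₀) ^ q / B.χ ((q : 𝕂) * v (z - s₀)) - algebraMap k Ω c) ∧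
      (∀ s ∈ S, C.Mono (z - s)) ∧ FracIs C.R (L ⊔ IntermediateField.adjoin k {z}) := by
  obtain ⟨D', r', χ', W, n, y', h1, h2, h3, h4, h5, h6, h7⟩ := exists_frame_z hk hr
    (isFr_of_LF B) hL B.rk hz (S := S)
    (fun s hs t ht => (hS s hs t ht).imp id (mono_iff B).mp) hSL hs₀ hmax
  refine ⟨r', D', LF_of_isFr h2 h3, h4, rfl, rfl, fun γ hγ => ?_, h1.y_sub, h5,
    fun s hs => (mono_iff (LF_of_isFr h2 h3)).mpr (h6 s hs), h7⟩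
  have e := h1.χ_eq hγ
  have hne := h1.new.ne _ (le_ext _ (v (z - s₀)) hγ)
  have e2 : B.χ γ / χ' γ = W ^ n γ 0 := by
    rw [e, mul_div_cancel_left₀ _ hne]
  change B.χ γ / χ' γ ∈ _ ∧ _
  change B.χ γ / χ' γ ∈ Rz v B.Γ B.χ B.R (z - s₀) ∧ B.χ γ / χ' γ ≠ 0 ∧ v (B.χ γ / χ' γ) = 0
  rw [e2]
  exact ⟨h1.W_zpow_mem _, zpow_ne_zero _ h1.W_ne, by
    rw [v.map_zpow h1.W_ne, h1.W_val, mul_zero]⟩

end Pool.Agent.TGBh34
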