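import Pool.Agent.Lib.TGB_h34.Fr0
import Pool.Agent.Lib.LU1_h15.Mk

/-!
# TANK G, limit level: from a frame of `L` to a frame of `L(z)`

`R` is a frame ring with monomials `χ`, `w = z - s₀` with `s₀ ∈ S` nearest to `z`. The new ring is
`Rz = locv (R[χ γ w ^ m : γ + m v(w) ≥ 0])`.
-/

set_option autoImplicit false

namespace Pool.Agent.TGBh34

open Pool.Agent.TAO (OVal VPos Ctx0 CtxR val_add_vpos)
open Pool.Agent.ALLO (locv le_locv locv_mono locv_le locv_inv locv_nonneg locv_field locv_locv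
  locv_adjoin_le)
open Pool.Agent.ALLh43 (Mon ext le_ext mem_ext mem_ext_iff ext_fg exists_chi add_mul_mem_ext
  exists_section int_mul_mem)
open Pool.Agent.LU1 (FracIs quo mem_quo le_quo quo_mono fracIs_iff)

universe u w

variable {k Ω : Type u} [Field k] [Field Ω] [Algebra k Ω]
  {𝕂 : Type w} [Field 𝕂] [LinearOrder 𝕂] [IsStrictOrderedRing 𝕂] {v : OVal 𝕂 Ω} {D D' : ℕ}

/-- The generators of the new ring over the old one. -/
def gz (v : OVal 𝕂 Ω) (Γ : AddSubgroup 𝕂) (χ : 𝕂 → Ω) (w : Ω) : Set Ω :=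
  {f | ∃ γ ∈ Γ, ∃ m : ℤ, 0 ≤ γ + m * v w ∧ f = χ γ * w ^ m}

/-- The new ring. -/
def Rz (v : OVal 𝕂 Ω) (Γ : AddSubgroup 𝕂) (χ : 𝕂 → Ω) (R : Subalgebra k Ω) (w : Ω) :
    Subalgebra k Ω :=
  locv v (Algebra.adjoin k ((R : Set Ω) ∪ gz v Γ χ w))

variable {Γ : AddSubgroup 𝕂} {χ χ' : 𝕂 → Ω} {y : Fin D → Ω} {y' : Fin D' → Ω}
  {R : Subalgebra k Ω} {w W : Ω} {n : 𝕂 → ℤ → ℤ}

theorem le_Rz : R ≤ Rz v Γ χ R w := fun _ hf =>
  le_locv _ (Algebra.subset_adjoin (Or.inl hf))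

theorem mem_Rz_of {γ : 𝕂} (hγ : γ ∈ Γ) {m : ℤ} (h : 0 ≤ γ + m * v w) :
    χ γ * w ^ m ∈ Rz v Γ χ R w :=
  le_locv _ (Algebra.subset_adjoin (Or.inr ⟨γ, hγ, m, h, rfl⟩))

theorem Rz_inv {f : Ω} (hf : f ∈ Rz v Γ χ R w) (h0 : f ≠ 0) (h1 : v f = 0) :
    f⁻¹ ∈ Rz v Γ χ R w := locv_inv hf h0 h1

theorem Rz_zpow {f : Ω} (hf : f ∈ Rz v Γ χ R w) (h0 : f ≠ 0) (h1 : v f = 0) (m : ℤ) :
    f ^ m ∈ Rz v Γ χ R w := by
  obtain ⟨m, rfl | rfl⟩ := m.eq_nat_or_neg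
  · rw [zpow_natCast]
    exact Subalgebra.pow_mem _ hf m
  · rw [zpow_neg, zpow_natCast, ← inv_pow]
    exact Subalgebra.pow_mem _ (Rz_inv hf h0 h1) m

/-- The new ring is the smallest local ring containing the generators. -/
theorem Rz_le {B : Subalgebra k Ω} (hR : R ≤ B)
    (hg : ∀ γ ∈ Γ, ∀ m : ℤ, 0 ≤ γ + m * v w → χ γ * w ^ m ∈ B)
    (hB : ∀ f ∈ B, f ≠ 0 → v f = 0 → f⁻¹ ∈ B) : Rz v Γ χ R w ≤ B := by
  refine locv_le (Algebra.adjoin_le ?_) hB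
  rintro f (hf | ⟨γ, hγ, m, h, rfl⟩)
  · exact hR hf
  · exact hg γ hγ m h

theorem Rz_nonneg (hk : ∀ c : k, c ≠ 0 → v (algebraMap k Ω c) = 0) (hM : Mon v Γ χ)
    (hR : ∀ f ∈ R, v.Ge 0 f) (hw : w ≠ 0) : ∀ f ∈ Rz v Γ χ R w, v.Ge 0 f := by
  refine locv_nonneg fun f hf => ?_
  induction hf using Algebra.adjoin_induction with
  | mem x hx =>
    rcases hx with hx | ⟨γ, hγ, m, h, rfl⟩
    · exact hR x hx
    · intro _
      rw [v.map_mul (hM.ne γ hγ) (zpow_ne_zero m hw), hM.val γ hγ, v.map_zpow hw]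
      exact h
  | algebraMap c =>
    intro h0
    have : c ≠ 0 := by rintro rfl; simp at h0
    rw [hk c this]
  | add x z _ _ hx hz => exact hx.add hz
  | mul x z _ _ hx hz => simpa using hx.mul hz

/-- The common data of the two cases. -/
structure TZ (v : OVal 𝕂 Ω) (Γ : AddSubgroup 𝕂) (χ : 𝕂 → Ω) (y : Fin D → Ω) (R : Subalgebra k Ω)
    (w : Ω) (χ' : 𝕂 → Ω) (W : Ω) (n : 𝕂 → ℤ → ℤ) (y' : Fin D' → Ω) : Prop where
  old : IsFr v Γ χ y R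
  w_ne : w ≠ 0
  new : Mon v (ext Γ (v w)) χ'
  W_ne : W ≠ 0
  W_val : v W = 0
  W_mem : W ∈ Rz v Γ χ R w
  eq : ∀ γ ∈ Γ, ∀ m : ℤ, χ γ * w ^ m = χ' (γ + m * v w) * W ^ n γ m
  y'_ne : ∀ i, y' i ≠ 0
  y'_pos : ∀ i, 0 < v (y' i)
  y'_mem : ∀ i, y' i ∈ Rz v Γ χ R w
  y_sub : ∀ i, ∃ j, y' j = y i
  W_res : ∃ c : k, MM0 (ext Γ (v w)) χ' y' (Rz v Γ χ R w) (W - algebraMap k Ω c)

namespace TZ

theorem W_zpow_mem (h : TZ v Γ χ y R w χ' W n y') (m : ℤ) : W ^ m ∈ Rz v Γ χ R w :=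
  Rz_zpow h.W_mem h.W_ne h.W_val m

theorem χ'_eq (h : TZ v Γ χ y R w χ' W n y') {γ : 𝕂} (hγ : γ ∈ Γ) (m : ℤ) :
    χ' (γ + m * v w) = χ γ * w ^ m * W ^ (-n γ m) := by
  rw [h.eq γ hγ m, zpow_neg, mul_assoc, mul_inv_cancel₀ (zpow_ne_zero _ h.W_ne), mul_one]

theorem χ_eq (h : TZ v Γ χ y R w χ' W n y') {γ : 𝕂} (hγ : γ ∈ Γ) :
    χ γ = χ' γ * W ^ n γ 0 := by
  have h1 := h.eq γ hγ 0
  rw [zpow_zero, mul_one, Int.cast_zero, zero_mul, add_zero] at h1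
  exact h1

theorem χ'_mem (h : TZ v Γ χ y R w χ' W n y') {γ : 𝕂} (hγ : γ ∈ ext Γ (v w)) (h0 : 0 ≤ γ) :
    χ' γ ∈ Rz v Γ χ R w := by
  obtain ⟨δ, hδ, m, rfl⟩ := mem_ext_iff.mp hγ
  rw [h.χ'_eq hδ m]
  exact Subalgebra.mul_mem _ (mem_Rz_of hδ h0) (h.W_zpow_mem _)

theorem pre (hk : ∀ c : k, c ≠ 0 → v (algebraMap k Ω c) = 0) (h : TZ v Γ χ y R w χ' W n y') :
    Pre0 v (ext Γ (v w)) χ' y' (Rz v Γ χ R w) where
  mon := h.new
  y_ne := h.y'_ne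
  y_pos := h.y'_pos
  nonneg := Rz_nonneg hk h.old.mon h.old.nonneg h.w_ne
  loc := fun _ hf h0 h1 => Rz_inv hf h0 h1
  χ_mem := fun _ hγ h0 => h.χ'_mem hγ h0
  y_mem := h.y'_mem

theorem mm_up (hk : ∀ c : k, c ≠ 0 → v (algebraMap k Ω c) = 0) (h : TZ v Γ χ y R w χ' W n y')
    {f : Ω} (hf : MM0 Γ χ y R f) : MM0 (ext Γ (v w)) χ' y' (Rz v Γ χ R w) f := by
  have H := h.pre hk
  obtain ⟨γ, hγ, a, ha, h0, b, hb, rfl⟩ := hf
  refine H.mm_add ?_ (H.mm_sum _ _ fun i _ => ?_)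
  · rcases h0 with h0 | h0
    · rw [h.χ_eq hγ, mul_assoc]
      exact H.mm_χ (le_ext _ _ hγ) h0 (Subalgebra.mul_mem _ (h.W_zpow_mem _) (le_Rz ha))
    · rw [h0, mul_zero]
      exact H.mm_zero
  · obtain ⟨j, hj⟩ := h.y_sub i
    rw [← hj]
    exact H.mm_y j (le_Rz (hb i))

/-- The new ring is a frame ring. -/
theorem isFr (hk : ∀ c : k, c ≠ 0 → v (algebraMap k Ω c) = 0)
    (hr : ∀ g : Ω, g ≠ 0 → v g = 0 → ∃ c : k, c ≠ 0 ∧ VPos v (g - algebraMap k Ω c))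
    (h : TZ v Γ χ y R w χ' W n y') : IsFr v (ext Γ (v w)) χ' y' (Rz v Γ χ R w) where
  toPre0 := h.pre hk
  fg := ext_fg h.old.fg _
  fgen := by
    classical
    obtain ⟨F, hF⟩ := h.old.fgen
    refine ⟨insert W F, ?_⟩
    set B : Subalgebra k Ω := locv v (Algebra.adjoin k (((insert W F : Finset Ω) : Set Ω) ∪
      χ' '' {γ | γ ∈ ext Γ (v w) ∧ 0 ≤ γ})) with hB
    have hBinv : ∀ f ∈ B, f ≠ 0 → v f = 0 → f⁻¹ ∈ B := fun f hf h0 h1 => locv_inv hf h0 h1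
    have hWB : W ∈ B := le_locv _ (Algebra.subset_adjoin (Or.inl (by simp)))
    have hWz : ∀ m : ℤ, W ^ m ∈ B := by
      intro m
      obtain ⟨m, rfl | rfl⟩ := m.eq_nat_or_neg
      · rw [zpow_natCast]; exact B.pow_mem hWB m
      · rw [zpow_neg, zpow_natCast, ← inv_pow]
        exact B.pow_mem (hBinv _ hWB h.W_ne h.W_val) m
    have hχB : ∀ γ ∈ ext Γ (v w), 0 ≤ γ → χ' γ ∈ B := fun γ hγ h0 =>
      le_locv _ (Algebra.subset_adjoin (Or.inr ⟨γ, ⟨hγ, h0⟩, rfl⟩))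
    apply le_antisymm
    · refine Rz_le ?_ (fun γ hγ m h0 => ?_) hBinv
      · rw [hF]
        refine locv_le (Algebra.adjoin_le ?_) hBinv
        rintro f (hf | ⟨γ, ⟨hγ, h0⟩, rfl⟩)
        · exact le_locv _ (Algebra.subset_adjoin (Or.inl (by simp at hf ⊢; exact Or.inr hf)))
        · rw [h.χ_eq hγ]
          exact B.mul_mem (hχB γ (le_ext _ _ hγ) h0) (hWz _)
      · rw [h.eq γ hγ m]
        exact B.mul_mem (hχB _ (add_mul_mem_ext _ hγ m) h0) (hWz _)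
    · refine locv_le (Algebra.adjoin_le ?_) fun f hf h0 h1 => Rz_inv hf h0 h1
      rintro f (hf | ⟨γ, ⟨hγ, h0⟩, rfl⟩)
      · rw [Finset.mem_coe, Finset.mem_insert] at hf
        rcases hf with rfl | hf
        · exact h.W_mem
        · refine le_Rz ?_
          rw [hF]
          exact le_locv _ (Algebra.subset_adjoin (Or.inl hf))
      · exact h.χ'_mem hγ h0
  gen := by
    have H := h.pre hk
    refine H.gen (S := (R : Set Ω) ∪ gz v Γ χ w) rfl (fun f hf => ?_) hk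
    rcases hf with hf | ⟨γ, hγ, m, h0, rfl⟩
    · by_cases hf0 : f = 0
      · rw [hf0]
        have := H.res_const (0 : k)
        rwa [_root_.map_zero] at this
      rcases (h.old.nonneg f hf hf0).lt_or_eq with h1 | h1
      · exact H.res_of_mm (h.mm_up hk (h.old.gen f hf fun _ => h1))
      · obtain ⟨c, -, hc⟩ := hr f hf0 h1.symm
        exact ⟨c, h.mm_up hk (h.old.gen _ (R.sub_mem hf (R.algebraMap_mem c)) hc)⟩
    · rcases h0.lt_or_eq with h1 | h1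
      · rw [h.eq γ hγ m]
        exact H.res_of_mm (H.mm_χ (add_mul_mem_ext _ hγ m) h1 (h.W_zpow_mem _))
      · rw [h.eq γ hγ m, ← h1, h.new.zero, one_mul]
        exact H.res_zpow h.W_res h.W_ne h.W_val _

/-- `w` is a monomial of the new frame. -/
theorem mono_w (h : TZ v Γ χ y R w χ' W n y') : Mono v (ext Γ (v w)) χ' (Rz v Γ χ R w) w := by
  have h1 := h.eq 0 Γ.zero_mem 1
  rw [h.old.mon.zero, one_mul, zpow_one, zero_add, Int.cast_one, one_mul] at h1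
  refine ⟨h.w_ne, mem_ext _ _, ?_⟩
  have h3 := h.new.ne _ (mem_ext Γ (v w))
  have h4 : w / χ' (v w) = W ^ n 0 1 := by
    rw [div_eq_iff h3, mul_comm]
    exact h1
  rw [h4]
  exact h.W_zpow_mem _

/-- Monomials stay monomials. -/
theorem mono_up (h : TZ v Γ χ y R w χ' W n y') {f : Ω} (hf : Mono v Γ χ R f) :
    Mono v (ext Γ (v w)) χ' (Rz v Γ χ R w) f := by
  refine ⟨hf.1, le_ext _ _ hf.2.1, ?_⟩
  have h1 := h.χ_eq hf.2.1
  have h2 := h.new.ne _ (le_ext _ (v w) hf.2.1)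
  have h3 : f / χ' (v f) = f / χ (v f) * W ^ n (v f) 0 := by
    rw [h1]
    have h4 : W ^ n (v f) 0 ≠ 0 := zpow_ne_zero _ h.W_ne
    field_simp
  rw [h3]
  exact Subalgebra.mul_mem _ (le_Rz hf.2.2) (h.W_zpow_mem _)

end TZ

/-! ### products and quotients of monomials -/

namespace Mono

variable {Γ : AddSubgroup 𝕂} {χ : 𝕂 → Ω} {y : Fin D → Ω} {R : Subalgebra k Ω}

theorem one (H : Pre0 v Γ χ y R) : Mono v Γ χ R (1 : Ω) := by
  refine ⟨one_ne_zero, ?_, ?_⟩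
  · rw [v.map_one]; exact Γ.zero_mem
  · rw [v.map_one, H.mon.zero, div_one]; exact R.one_mem

theorem mul (H : Pre0 v Γ χ y R) {f g : Ω} (hf : Mono v Γ χ R f) (hg : Mono v Γ χ R g) :
    Mono v Γ χ R (f * g) := by
  refine ⟨mul_ne_zero hf.1 hg.1, ?_, ?_⟩
  · rw [v.map_mul hf.1 hg.1]; exact Γ.add_mem hf.2.1 hg.2.1
  · rw [v.map_mul hf.1 hg.1, H.mon.add _ hf.2.1 _ hg.2.1, mul_div_mul_comm]
    exact R.mul_mem hf.2.2 hg.2.2

theorem inv (H : Pre0 v Γ χ y R) {f : Ω} (hf : Mono v Γ χ R f) : Mono v Γ χ R f⁻¹ := by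
  have h0 := H.mon.ne _ hf.2.1
  refine ⟨inv_ne_zero hf.1, ?_, ?_⟩
  · rw [v.map_inv hf.1]; exact Γ.neg_mem hf.2.1
  · rw [v.map_inv hf.1, H.mon.neg hf.2.1]
    have : f⁻¹ / (χ (v f))⁻¹ = (f / χ (v f))⁻¹ := by
      rw [inv_div, div_inv_eq_mul, div_eq_mul_inv, mul_comm]
    rw [this]
    exact H.loc _ hf.2.2 (div_ne_zero hf.1 h0) (by
      rw [v.map_div hf.1 h0, H.mon.val _ hf.2.1, sub_self])

theorem div (H : Pre0 v Γ χ y R) {f g : Ω} (hf : Mono v Γ χ R f) (hg : Mono v Γ χ R g) :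
    Mono v Γ χ R (f / g) := by
  rw [div_eq_mul_inv]
  exact mul H hf (inv H hg)

theorem pow (H : Pre0 v Γ χ y R) {f : Ω} (hf : Mono v Γ χ R f) (m : ℕ) :
    Mono v Γ χ R (f ^ m) := by
  induction m with
  | zero => rw [pow_zero]; exact one H
  | succ m ih => rw [pow_succ]; exact mul H ih hf

/-- A monomial of value `≥ 0` lies in the ring. -/
theorem mem (H : Pre0 v Γ χ y R) {f : Ω} (hf : Mono v Γ χ R f) (h0 : 0 ≤ v f) : f ∈ R := by
  have := R.mul_mem (H.χ_mem _ hf.2.1 h0) hf.2.2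
  rwa [mul_div_cancel₀ _ (H.mon.ne _ hf.2.1)] at this

/-- A unit is a monomial. -/
theorem of_unit (H : Pre0 v Γ χ y R) {f : Ω} (hf : f ∈ R) (h0 : f ≠ 0) (h1 : v f = 0) :
    Mono v Γ χ R f := by
  refine ⟨h0, ?_, ?_⟩
  · rw [h1]; exact Γ.zero_mem
  · rw [h1, H.mon.zero, div_one]; exact hf

theorem of_chi (H : Pre0 v Γ χ y R) {γ : 𝕂} (hγ : γ ∈ Γ) : Mono v Γ χ R (χ γ) := by
  refine ⟨H.mon.ne γ hγ, ?_, ?_⟩
  · rw [H.mon.val γ hγ]; exact hγ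
  · rw [H.mon.val γ hγ, div_self (H.mon.ne γ hγ)]; exact R.one_mem

end Mono

/-! ### the differences -/

/-- All differences `z - s` are monomials of the new frame. -/
theorem TZ.mono_sub (hk : ∀ c : k, c ≠ 0 → v (algebraMap k Ω c) = 0)
    (h : TZ v Γ χ y R w χ' W n y') {δ : Ω} (hδ : δ = 0 ∨ Mono v Γ χ R δ) (h0 : w + δ ≠ 0)
    (hmax : v (w + δ) ≤ v w) : Mono v (ext Γ (v w)) χ' (Rz v Γ χ R w) (w + δ) := by
  have H := h.pre hk
  rcases hδ with rfl | hδ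
  · rw [add_zero]
    exact h.mono_w
  have hδ' := h.mono_up hδ
  have hw := h.mono_w
  rcases lt_trichotomy (v w) (v δ) with hlt | heq | hlt
  · -- `w` dominates
    have h1 : Mono v (ext Γ (v w)) χ' (Rz v Γ χ R w) (δ / w) := Mono.div H hδ' hw
    have h2 : 0 < v (δ / w) := by rw [v.map_div hδ.1 h.w_ne]; linarith
    have h3 : δ / w ∈ Rz v Γ χ R w := Mono.mem H h1 h2.le
    have h4 := val_add_vpos (v := v) (f := (1 : Ω)) one_ne_zero v.map_one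
      (g := δ / w) fun _ => h2
    have e : w + δ = w * (1 + δ / w) := by
      rw [mul_add, mul_one, mul_div_cancel₀ _ h.w_ne]
    rw [e]
    exact Mono.mul H hw (Mono.of_unit H (Subalgebra.add_mem _ (Subalgebra.one_mem _) h3)
      h4.1 h4.2)
  · -- equal values
    have h5 : v (w + δ) = v w := le_antisymm hmax (by
      have := v.map_add h.w_ne hδ.1 h0
      rwa [← heq, min_self] at this)
    have h1 : Mono v (ext Γ (v w)) χ' (Rz v Γ χ R w) (δ / w) := Mono.div H hδ' hw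
    have h2 : v (δ / w) = 0 := by rw [v.map_div hδ.1 h.w_ne]; linarith
    have h3 : δ / w ∈ Rz v Γ χ R w := Mono.mem H h1 h2.ge
    have e : w + δ = w * (1 + δ / w) := by
      rw [mul_add, mul_one, mul_div_cancel₀ _ h.w_ne]
    have h6 : 1 + δ / w ≠ 0 := by
      intro h6
      rw [h6, mul_zero] at e
      exact h0 e
    have h7 : v (1 + δ / w) = 0 := by
      have h8 : v (w * (1 + δ / w)) = v w := by rw [← e]; exact h5
      rw [v.map_mul h.w_ne h6] at h8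
      linarith
    rw [e]
    exact Mono.mul H hw (Mono.of_unit H (Subalgebra.add_mem _ (Subalgebra.one_mem _) h3) h6 h7)
  · -- `δ` dominates
    have h1 : Mono v (ext Γ (v w)) χ' (Rz v Γ χ R w) (w / δ) := Mono.div H hw hδ'
    have h2 : 0 < v (w / δ) := by rw [v.map_div h.w_ne hδ.1]; linarith
    have h3 : w / δ ∈ Rz v Γ χ R w := Mono.mem H h1 h2.le
    have h4 := val_add_vpos (v := v) (f := (1 : Ω)) one_ne_zero v.map_one
      (g := w / δ) fun _ => h2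
    have e : w + δ = δ * (1 + w / δ) := by
      rw [mul_add, mul_one, mul_div_cancel₀ _ hδ.1, add_comm]
    rw [e]
    exact Mono.mul H hδ' (Mono.of_unit H (Subalgebra.add_mem _ (Subalgebra.one_mem _) h3)
      h4.1 h4.2)

/-! ### the two cases -/

/-- Case (a): `v w` is not commensurable with `Γ`. -/
theorem exists_chi_free (hχ : Mon v Γ χ) (hw : w ≠ 0)
    (hβ : ∀ m : ℤ, (m : 𝕂) * v w ∈ Γ → m = 0) :
    ∃ χ' : 𝕂 → Ω, Mon v (ext Γ (v w)) χ' ∧ ∀ γ ∈ Γ, ∀ m : ℤ,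
      χ γ * w ^ m = χ' (γ + m * v w) := by
  classical
  have huniq : ∀ γ ∈ Γ, ∀ δ ∈ Γ, ∀ m m' : ℤ, γ + m * v w = δ + m' * v w → m = m' ∧ γ = δ := by
    intro γ hγ δ hδ m m' h
    have h1 : ((m - m' : ℤ) : 𝕂) * v w ∈ Γ := by
      have : ((m - m' : ℤ) : 𝕂) * v w = δ - γ := by push_cast; linear_combination h
      rw [this]
      exact Γ.sub_mem hδ hγ
    have h2 := hβ _ h1
    have h3 : m = m' := by linarith
    refine ⟨h3, ?_⟩
    rw [h3] at h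
    exact add_right_cancel h
  let χ' : 𝕂 → Ω := fun x => if h : ∃ p : 𝕂 × ℤ, p.1 ∈ Γ ∧ x = p.1 + p.2 * v w
    then χ h.choose.1 * w ^ h.choose.2 else 0
  have hχ' : ∀ γ ∈ Γ, ∀ m : ℤ, χ γ * w ^ m = χ' (γ + m * v w) := by
    intro γ hγ m
    have h : ∃ p : 𝕂 × ℤ, p.1 ∈ Γ ∧ γ + m * v w = p.1 + p.2 * v w := ⟨(γ, m), hγ, rfl⟩
    have h1 := h.choose_spec
    obtain ⟨h2, h3⟩ := huniq γ hγ _ h1.1 m _ h1.2
    simp only [χ', dif_pos h]
    rw [← h2, ← h3]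
  refine ⟨χ', ⟨fun x hx => ?_, fun x hx x' hx' => ?_, fun x hx => ?_⟩, hχ'⟩
  · obtain ⟨γ, hγ, m, rfl⟩ := mem_ext_iff.mp hx
    rw [← hχ' γ hγ m]
    exact mul_ne_zero (hχ.ne γ hγ) (zpow_ne_zero _ hw)
  · obtain ⟨γ, hγ, m, rfl⟩ := mem_ext_iff.mp hx
    obtain ⟨δ, hδ, m', rfl⟩ := mem_ext_iff.mp hx'
    have e : γ + m * v w + (δ + m' * v w) = (γ + δ) + ((m + m' : ℤ) : 𝕂) * v w := by
      push_cast; ring
    rw [e, ← hχ' _ (Γ.add_mem hγ hδ), ← hχ' γ hγ m, ← hχ' δ hδ m', hχ.add _ hγ _ hδ,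
      zpow_add₀ hw]
    ring
  · obtain ⟨γ, hγ, m, rfl⟩ := mem_ext_iff.mp hx
    rw [← hχ' γ hγ m, v.map_mul (hχ.ne γ hγ) (zpow_ne_zero _ hw), hχ.val γ hγ, v.map_zpow hw]

/-- Case (a): same parameters. -/
theorem tz_free (hF : IsFr v Γ χ y R) (hw : w ≠ 0)
    (hβ : ∀ m : ℤ, (m : 𝕂) * v w ∈ Γ → m = 0) :
    ∃ χ' : 𝕂 → Ω, TZ v Γ χ y R w χ' 1 (fun _ _ => 0) y := by
  obtain ⟨χ', h1, h2⟩ := exists_chi_free hF.mon hw hβ
  refine ⟨χ', hF, hw, h1, one_ne_zero, v.map_one, Subalgebra.one_mem _, fun γ hγ m => ?_,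
    hF.y_ne, hF.y_pos, fun i => le_Rz (hF.y_mem i), fun i => ⟨i, rfl⟩, 1, ?_⟩
  · rw [h2 γ hγ m, zpow_zero, mul_one]
  · rw [_root_.map_one, sub_self]
    exact ⟨0, (ext Γ (v w)).zero_mem, 0, Subalgebra.zero_mem _, Or.inr rfl, 0,
      fun _ => Subalgebra.zero_mem _, by simp⟩

/-- The order of `v w` modulo `Γ`. -/
theorem exists_order (Γ : AddSubgroup 𝕂) (β : 𝕂) (h : ∃ m : ℤ, m ≠ 0 ∧ (m : 𝕂) * β ∈ Γ) :
    ∃ q : ℕ, 0 < q ∧ (q : 𝕂) * β ∈ Γ ∧ ∀ m : ℤ, (m : 𝕂) * β ∈ Γ → (q : ℤ) ∣ m := by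
  classical
  have hexq : ∃ m : ℕ, 0 < m ∧ (m : 𝕂) * β ∈ Γ := by
    obtain ⟨m, hm, h1⟩ := h
    obtain ⟨t, rfl | rfl⟩ := m.eq_nat_or_neg
    · refine ⟨t, Nat.pos_of_ne_zero fun h0 => hm (by simp [h0]), by simpa using h1⟩
    · refine ⟨t, Nat.pos_of_ne_zero fun h0 => hm (by simp [h0]), ?_⟩
      have := Γ.neg_mem h1
      simpa using this
  refine ⟨Nat.find hexq, (Nat.find_spec hexq).1, (Nat.find_spec hexq).2, fun m hm => ?_⟩
  set q := Nat.find hexq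
  have hq : 0 < q := (Nat.find_spec hexq).1
  have hqκ : (q : 𝕂) * β ∈ Γ := (Nat.find_spec hexq).2
  have hq' : (0 : ℤ) < q := by exact_mod_cast hq
  have h1 : ((m % q : ℤ) : 𝕂) * β ∈ Γ := by
    have e : ((m % q : ℤ) : 𝕂) * β = (m : 𝕂) * β - ((m / q : ℤ) : 𝕂) * ((q : 𝕂) * β) := by
      have h2 := Int.emod_add_mul_ediv m q
      have h3 : (m : 𝕂) = ((m % q : ℤ) : 𝕂) + (q : 𝕂) * ((m / q : ℤ) : 𝕂) := by
        exact_mod_cast congrArg (Int.cast : ℤ → 𝕂) h2.symm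
      rw [h3]
      ring
    rw [e]
    exact Γ.sub_mem hm (int_mul_mem hqκ _)
  have h2 := Int.emod_nonneg m hq'.ne'
  have h3 := Int.emod_lt_of_pos m hq'
  obtain ⟨t, ht⟩ := Int.eq_ofNat_of_zero_le h2
  rw [ht] at h1 h3
  rw [Int.cast_natCast] at h1
  rcases Nat.eq_zero_or_pos t with h0 | h0
  · rw [h0] at ht
    exact Int.dvd_of_emod_eq_zero (by simpa using ht)
  · exact absurd ⟨h0, h1⟩ (Nat.find_min hexq (by exact_mod_cast h3))

/-- Case (b): one more parameter. -/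
theorem tz_tors (hF : IsFr v Γ χ y R) (hw : w ≠ 0) {q : ℕ} (hq : 0 < q)
    (hqβ : (q : 𝕂) * v w ∈ Γ) (hmin : ∀ m : ℤ, (m : 𝕂) * v w ∈ Γ → (q : ℤ) ∣ m) {c : k}
    (hc : VPos v (w ^ q / χ ((q : 𝕂) * v w) - algebraMap k Ω c))
    (hne : w ^ q / χ ((q : 𝕂) * v w) - algebraMap k Ω c ≠ 0) :
    ∃ (χ' : 𝕂 → Ω) (n : 𝕂 → ℤ → ℤ), TZ v Γ χ y R w χ' (w ^ q / χ ((q : 𝕂) * v w)) n
      (Fin.snoc y (w ^ q / χ ((q : 𝕂) * v w) - algebraMap k Ω c) : Fin (D + 1) → Ω) := by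
  obtain ⟨χ', h1, n, h2, -⟩ := exists_chi hF.fg hF.mon hw rfl hq hqβ hmin
  have hχq := hF.mon.ne _ hqβ
  set W : Ω := w ^ q / χ ((q : 𝕂) * v w) with hW
  have hW0 : W ≠ 0 := div_ne_zero (pow_ne_zero _ hw) hχq
  have hWv : v W = 0 := by
    rw [hW, v.map_div (pow_ne_zero _ hw) hχq, v.map_pow hw, hF.mon.val _ hqβ, sub_self]
  have hWm : W ∈ Rz v Γ χ R w := by
    have h3 : W = χ (-((q : 𝕂) * v w)) * w ^ (q : ℤ) := by
      rw [hF.mon.neg hqβ, zpow_natCast, hW, div_eq_mul_inv, mul_comm]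
    rw [h3]
    refine mem_Rz_of (Γ.neg_mem hqβ) ?_
    push_cast
    linarith
  refine ⟨χ', n, hF, hw, h1, hW0, hWv, hWm, h2, fun i => ?_, fun i => ?_, fun i => ?_,
    fun i => ⟨i.castSucc, by rw [Fin.snoc_castSucc]⟩, c, ?_⟩
  · refine Fin.lastCases ?_ (fun i => ?_) i
    · rw [Fin.snoc_last]; exact hne
    · rw [Fin.snoc_castSucc]; exact hF.y_ne i
  · refine Fin.lastCases ?_ (fun i => ?_) i
    · rw [Fin.snoc_last]; exact hc hne
    · rw [Fin.snoc_castSucc]; exact hF.y_pos i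
  · refine Fin.lastCases ?_ (fun i => ?_) i
    · rw [Fin.snoc_last]
      exact Subalgebra.sub_mem _ hWm (Subalgebra.algebraMap_mem _ c)
    · rw [Fin.snoc_castSucc]; exact le_Rz (hF.y_mem i)
  · classical
    refine ⟨0, (ext Γ (v w)).zero_mem, 0, Subalgebra.zero_mem _, Or.inr rfl,
      fun j => if j = Fin.last D then 1 else 0, fun j => ?_, ?_⟩
    · dsimp only
      split_ifs
      · exact Subalgebra.one_mem _
      · exact Subalgebra.zero_mem _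
    · simp

/-! ### the rank -/

/-- `Γ` has rank `r`: `X` is a basis of `ℚ Γ`. -/
def RkIs (Γ : AddSubgroup 𝕂) (r : ℕ) : Prop :=
  ∃ X : Fin r → 𝕂, LinearIndependent ℚ X ∧ (∀ i, X i ∈ Γ) ∧
    ∀ γ ∈ Γ, γ ∈ Submodule.span ℚ (Set.range X)

theorem exists_int_of_rat (Γ : AddSubgroup 𝕂) {r : ℕ} {X : Fin r → 𝕂} (hX : ∀ i, X i ∈ Γ)
    {β : 𝕂} (h : β ∈ Submodule.span ℚ (Set.range X)) : ∃ m : ℤ, m ≠ 0 ∧ (m : 𝕂) * β ∈ Γ := by
  induction h using Submodule.span_induction with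
  | mem x hx =>
    obtain ⟨i, rfl⟩ := hx
    exact ⟨1, one_ne_zero, by simpa using hX i⟩
  | zero => exact ⟨1, one_ne_zero, by simp [Γ.zero_mem]⟩
  | add x z _ _ hx hz =>
    obtain ⟨m, hm, h1⟩ := hx
    obtain ⟨m', hm', h2⟩ := hz
    refine ⟨m * m', mul_ne_zero hm hm', ?_⟩
    have e : ((m * m' : ℤ) : 𝕂) * (x + z) = (m' : 𝕂) * ((m : 𝕂) * x) +
        (m : 𝕂) * ((m' : 𝕂) * z) := by push_cast; ring
    rw [e]
    exact Γ.add_mem (int_mul_mem h1 _) (int_mul_mem h2 _)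
  | smul a x _ hx =>
    obtain ⟨m, hm, h1⟩ := hx
    refine ⟨a.den * m, mul_ne_zero (by exact_mod_cast a.den_nz) hm, ?_⟩
    have h3 : (a.den : 𝕂) * (a : 𝕂) = (a.num : 𝕂) := by
      exact_mod_cast congrArg (Rat.cast : ℚ → 𝕂) (Rat.den_mul_eq_num a)
    have e : ((a.den * m : ℤ) : 𝕂) * (a • x) = (a.num : 𝕂) * ((m : 𝕂) * x) := by
      rw [Algebra.smul_def, eq_ratCast]
      push_cast
      rw [← h3]
      ring
    rw [e]
    exact int_mul_mem h1 _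

theorem rkIs_ext_tors {r : ℕ} (h : RkIs Γ r) {β : 𝕂} {q : ℕ} (hq : 0 < q)
    (hqβ : (q : 𝕂) * β ∈ Γ) : RkIs (ext Γ β) r := by
  obtain ⟨X, h1, h2, h3⟩ := h
  have hβ : β ∈ Submodule.span ℚ (Set.range X) := by
    have h4 := Submodule.smul_mem (Submodule.span ℚ (Set.range X)) ((q : ℚ)⁻¹) (h3 _ hqβ)
    have e : ((q : ℚ)⁻¹) • ((q : 𝕂) * β) = β := by
      have hq' : (q : 𝕂) ≠ 0 := by exact_mod_cast hq.ne'
      rw [Algebra.smul_def, eq_ratCast]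
      push_cast
      rw [← mul_assoc, inv_mul_cancel₀ hq', one_mul]
    rwa [e] at h4
  refine ⟨X, h1, fun i => le_ext _ _ (h2 i), fun γ hγ => ?_⟩
  obtain ⟨δ, hδ, m, rfl⟩ := mem_ext_iff.mp hγ
  refine Submodule.add_mem _ (h3 δ hδ) ?_
  have := Submodule.smul_mem (Submodule.span ℚ (Set.range X)) (m : ℚ) hβ
  rw [Algebra.smul_def, eq_ratCast] at this
  simpa using this

theorem rkIs_ext_free {r : ℕ} (h : RkIs Γ r) {β : 𝕂}
    (hβ : ∀ m : ℤ, (m : 𝕂) * β ∈ Γ → m = 0) : RkIs (ext Γ β) (r + 1) := by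
  obtain ⟨X, h1, h2, h3⟩ := h
  have hβ' : β ∉ Submodule.span ℚ (Set.range X) := by
    intro h4
    obtain ⟨m, hm, h5⟩ := exists_int_of_rat Γ h2 h4
    exact hm (hβ m h5)
  refine ⟨Fin.snoc X β, ?_, fun i => ?_, fun γ hγ => ?_⟩
  · rw [linearIndependent_finSnoc]
    exact ⟨h1, hβ'⟩
  · refine Fin.lastCases ?_ (fun i => ?_) i
    · rw [Fin.snoc_last]; exact mem_ext _ _
    · rw [Fin.snoc_castSucc]; exact le_ext _ _ (h2 i)
  · obtain ⟨δ, hδ, m, rfl⟩ := mem_ext_iff.mp hγ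
    have hle : Submodule.span ℚ (Set.range X) ≤
        Submodule.span ℚ (Set.range (Fin.snoc X β : Fin (r + 1) → 𝕂)) := by
      refine Submodule.span_mono ?_
      rintro _ ⟨i, rfl⟩
      exact ⟨i.castSucc, by rw [Fin.snoc_castSucc]⟩
    refine Submodule.add_mem _ (hle (h3 δ hδ)) ?_
    have h5 : β ∈ Submodule.span ℚ (Set.range (Fin.snoc X β : Fin (r + 1) → 𝕂)) :=
      Submodule.subset_span ⟨Fin.last r, by rw [Fin.snoc_last]⟩
    have := Submodule.smul_mem _ (m : ℚ) h5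
    rw [Algebra.smul_def, eq_ratCast] at this
    simpa using this

/-! ### fields of fractions -/

theorem chi_mem_field {L : IntermediateField k Ω} (H : Pre0 v Γ χ y R) (hL : ∀ f ∈ R, f ∈ L)
    {γ : 𝕂} (hγ : γ ∈ Γ) : χ γ ∈ L := by
  rcases le_total 0 γ with h0 | h0
  · exact hL _ (H.χ_mem γ hγ h0)
  · have h1 := L.inv_mem (hL _ (H.χ_mem _ (Γ.neg_mem hγ) (neg_nonneg.mpr h0)))
    rwa [H.mon.neg hγ, inv_inv] at h1

/-- The new ring has field of fractions `L(w)`. -/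
theorem TZ.fracIs {L F : IntermediateField k Ω} (h : TZ v Γ χ y R w χ' W n y')
    (hL : FracIs R L) (hF : F = L ⊔ IntermediateField.adjoin k {w}) :
    FracIs (Rz v Γ χ R w) F := by
  have hLF : L ≤ F := by rw [hF]; exact le_sup_left
  have hwF : w ∈ F := by
    rw [hF]
    exact (le_sup_right : IntermediateField.adjoin k {w} ≤ _)
      (IntermediateField.subset_adjoin k _ (Set.mem_singleton w))
  refine fracIs_iff.mpr ⟨?_, ?_⟩
  · refine locv_field fun f hf => ?_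
    have hle : Algebra.adjoin k ((R : Set Ω) ∪ gz v Γ χ w) ≤ F.toSubalgebra := by
      refine Algebra.adjoin_le ?_
      rintro f (hf | ⟨γ, hγ, m, -, rfl⟩)
      · exact hLF (hL.1 f hf)
      · exact F.mul_mem (hLF (chi_mem_field h.old.toPre0 hL.1 hγ)) (zpow_mem hwF m)
    exact hle hf
  · rw [hF]
    refine sup_le ?_ ?_
    · exact (fracIs_iff.mp hL).2.trans (quo_mono le_Rz)
    · rw [IntermediateField.adjoin_le_iff, Set.singleton_subset_iff]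
      change w ∈ quo (Rz v Γ χ R w)
      have h1 := h.mono_w
      rcases le_total 0 (v w) with h0 | h0
      · have h2 : χ 0 * w ^ (1 : ℤ) ∈ Rz v Γ χ R w := mem_Rz_of Γ.zero_mem (by simpa using h0)
        rw [h.old.mon.zero, one_mul, zpow_one] at h2
        exact le_quo h2
      · have h2 : χ 0 * w ^ (-1 : ℤ) ∈ Rz v Γ χ R w := mem_Rz_of Γ.zero_mem (by
          push_cast; linarith)
        rw [h.old.mon.zero, one_mul, zpow_neg_one] at h2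
        have := (quo (Rz v Γ χ R w)).inv_mem (le_quo h2)
        rwa [inv_inv] at this

/-! ### the row -/

/-- The new ring depends only on `w` up to units. -/
theorem Rz_le_Rz {w' : Ω} (hw : w ≠ 0) (hw' : w' ≠ 0) (hv : v w' = v w)
    (hu : w' / w ∈ Rz v Γ χ R w) : Rz v Γ χ R w' ≤ Rz v Γ χ R w := by
  refine Rz_le le_Rz (fun γ hγ m h0 => ?_) fun f hf h0 h1 => Rz_inv hf h0 h1
  have h1 : w' / w ≠ 0 := div_ne_zero hw' hw
  have h2 : v (w' / w) = 0 := by rw [v.map_div hw' hw, hv, sub_self]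
  have e : χ γ * w' ^ m = χ γ * w ^ m * (w' / w) ^ m := by
    rw [div_zpow, mul_assoc, mul_div_cancel₀ _ (zpow_ne_zero _ hw)]
  rw [e]
  rw [hv] at h0
  exact Subalgebra.mul_mem _ (mem_Rz_of hγ h0) (Rz_zpow hu h1 h2 m)

/-- ROW (3.2): `R` is a frame ring of `L`, the differences of elements of `S` are monomials, `s₀` is
an element of `S` nearest to `z`. Then `Rz` for `w = z - s₀` is a frame ring of `L(z)`, and all the
`z - s` are monomials. -/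
theorem exists_frame_z (hk : ∀ c : k, c ≠ 0 → v (algebraMap k Ω c) = 0)
    (hr : ∀ g : Ω, g ≠ 0 → v g = 0 → ∃ c : k, c ≠ 0 ∧ VPos v (g - algebraMap k Ω c))
    (hF : IsFr v Γ χ y R) {L : IntermediateField k Ω} (hL : FracIs R L) {r : ℕ}
    (hrk : RkIs Γ r) {z : Ω} (hz : ¬ IsAlgebraic L z) {S : Set Ω}
    (hS : ∀ s ∈ S, ∀ t ∈ S, s - t = 0 ∨ Mono v Γ χ R (s - t)) (hSL : ∀ s ∈ S, s ∈ L) {s₀ : Ω}
    (hs₀ : s₀ ∈ S) (hmax : ∀ s ∈ S, v (z - s) ≤ v (z - s₀)) :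
    ∃ (D' r' : ℕ) (χ' : 𝕂 → Ω) (W : Ω) (n : 𝕂 → ℤ → ℤ) (y' : Fin D' → Ω),
      TZ v Γ χ y R (z - s₀) χ' W n y' ∧
      IsFr v (ext Γ (v (z - s₀))) χ' y' (Rz v Γ χ R (z - s₀)) ∧
      RkIs (ext Γ (v (z - s₀))) r' ∧ r' + D' = r + D + 1 ∧
      (∀ j, (∃ i, y' j = y i) ∨ ∃ (q : ℕ) (c : k), 0 < q ∧ (q : 𝕂) * v (z - s₀) ∈ Γ ∧ c ≠ 0 ∧
        y' j = (z - s₀) ^ q / χ ((q : 𝕂) * v (z - s₀)) - algebraMap k Ω c) ∧
      (∀ s ∈ S, Mono v (ext Γ (v (z - s₀))) χ' (Rz v Γ χ R (z - s₀)) (z - s)) ∧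
      FracIs (Rz v Γ χ R (z - s₀)) (L ⊔ IntermediateField.adjoin k {z}) := by
  have hs₀L := hSL s₀ hs₀
  have halg : ∀ {g : Ω}, g ∈ L → IsAlgebraic L g := fun {g} hg =>
    isAlgebraic_algebraMap (⟨g, hg⟩ : L)
  have hwalg : ¬ IsAlgebraic L (z - s₀) := fun h => hz (by
    have := h.add (halg hs₀L)
    rwa [sub_add_cancel] at this)
  have hzs : ∀ s ∈ S, z - s ≠ 0 := fun s hs h => hz (by
    rw [sub_eq_zero.mp h]; exact halg (hSL s hs))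
  set w : Ω := z - s₀ with hw
  have hw0 : w ≠ 0 := hzs s₀ hs₀
  have hadj : L ⊔ IntermediateField.adjoin k {z} = L ⊔ IntermediateField.adjoin k {w} := by
    apply le_antisymm
    · refine sup_le le_sup_left ?_
      rw [IntermediateField.adjoin_le_iff, Set.singleton_subset_iff]
      have h1 : w ∈ L ⊔ IntermediateField.adjoin k {w} :=
        (le_sup_right : IntermediateField.adjoin k {w} ≤ _)
          (IntermediateField.subset_adjoin k _ (Set.mem_singleton w))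
      have h2 : s₀ ∈ L ⊔ IntermediateField.adjoin k {w} := (le_sup_left : L ≤ _) hs₀L
      have h3 := (L ⊔ IntermediateField.adjoin k {w}).add_mem h1 h2
      rwa [hw, sub_add_cancel] at h3
    · refine sup_le le_sup_left ?_
      rw [IntermediateField.adjoin_le_iff, Set.singleton_subset_iff]
      have h1 : z ∈ L ⊔ IntermediateField.adjoin k {z} :=
        (le_sup_right : IntermediateField.adjoin k {z} ≤ _)
          (IntermediateField.subset_adjoin k _ (Set.mem_singleton z))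
      have h2 : s₀ ∈ L ⊔ IntermediateField.adjoin k {z} := (le_sup_left : L ≤ _) hs₀L
      exact (L ⊔ IntermediateField.adjoin k {z}).sub_mem h1 h2
  have key : ∀ {D' : ℕ} {χ' : 𝕂 → Ω} {W : Ω} {n : 𝕂 → ℤ → ℤ} {y' : Fin D' → Ω},
      TZ v Γ χ y R w χ' W n y' → IsFr v (ext Γ (v w)) χ' y' (Rz v Γ χ R w) ∧
      (∀ s ∈ S, Mono v (ext Γ (v w)) χ' (Rz v Γ χ R w) (z - s)) ∧
      FracIs (Rz v Γ χ R w) (L ⊔ IntermediateField.adjoin k {z}) := by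
    intro D' χ' W n y' h
    refine ⟨h.isFr hk hr, fun s hs => ?_, h.fracIs hL hadj⟩
    have e : z - s = w + (s₀ - s) := by rw [hw]; ring
    rw [e]
    refine h.mono_sub hk (hS s₀ hs₀ s hs) ?_ ?_
    · rw [← e]; exact hzs s hs
    · rw [← e]; exact hmax s hs
  by_cases hcase : ∃ m : ℤ, m ≠ 0 ∧ (m : 𝕂) * v w ∈ Γ
  · obtain ⟨q, hq, hqβ, hmin⟩ := exists_order Γ (v w) hcase
    have hχq := hF.mon.ne _ hqβ
    have hW0 : w ^ q / χ ((q : 𝕂) * v w) ≠ 0 := div_ne_zero (pow_ne_zero _ hw0) hχq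
    have hWv : v (w ^ q / χ ((q : 𝕂) * v w)) = 0 := by
      rw [v.map_div (pow_ne_zero _ hw0) hχq, v.map_pow hw0, hF.mon.val _ hqβ, sub_self]
    obtain ⟨c, hc0, hc⟩ := hr _ hW0 hWv
    have hne : w ^ q / χ ((q : 𝕂) * v w) - algebraMap k Ω c ≠ 0 := by
      intro h0
      have h1 : w ^ q = algebraMap k Ω c * χ ((q : 𝕂) * v w) := by
        rw [← sub_eq_zero.mp h0, div_mul_cancel₀ _ hχq]
      refine hwalg (IsAlgebraic.of_pow hq ?_)
      rw [h1]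
      exact halg (L.mul_mem (L.algebraMap_mem c) (chi_mem_field hF.toPre0 hL.1 hqβ))
    obtain ⟨χ', n, h⟩ := tz_tors hF hw0 hq hqβ hmin hc hne
    obtain ⟨h1, h2, h3⟩ := key h
    refine ⟨D + 1, r, χ', _, n, _, h, h1, rkIs_ext_tors hrk hq hqβ, by ring, fun j => ?_, h2, h3⟩
    refine Fin.lastCases ?_ (fun i => ?_) j
    · exact Or.inr ⟨q, c, hq, hqβ, hc0, by rw [Fin.snoc_last]⟩
    · exact Or.inl ⟨i, by rw [Fin.snoc_castSucc]⟩
  · have hβ : ∀ m : ℤ, (m : 𝕂) * v w ∈ Γ → m = 0 := by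
      intro m hm
      by_contra h0
      exact hcase ⟨m, h0, hm⟩
    obtain ⟨χ', h⟩ := tz_free hF hw0 hβ
    obtain ⟨h1, h2, h3⟩ := key h
    exact ⟨D, r + 1, χ', 1, _, y, h, h1, rkIs_ext_free hrk hβ, by ring,
      fun j => Or.inl ⟨j, rfl⟩, h2, h3⟩

end Pool.Agent.TGBh34
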